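import Mathlib

/-!
# Continuous images of monotonically Sokolov spaces

The one-point Lindelöfication of a discrete space of cardinality continuum is monotonically
Sokolov, but it has a continuous image (a compact separable subspace of a Cantor cube) that is
not.
-/

open Filter Topology Set

namespace Pool.Agent.Results.MP_a45b15_gt.ContinuousImage

/-- `𝒩` is an external network for `A` in `X`. -/
def IsExternalNetwork {X : Type*} [TopologicalSpace X] (𝒩 : Set (Set X)) (A : Set X) : Prop :=
  ∀ a ∈ A, ∀ U : Set X, IsOpen U → a ∈ U → ∃ N ∈ 𝒩, a ∈ N ∧ N ⊆ U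

/-- `ℱ` is a countable family of closed subsets of `X`. -/
def IsCountableClosedFamily {X : Type*} [TopologicalSpace X] (ℱ : Set (Set X)) : Prop :=
  ℱ.Countable ∧ ∀ F ∈ ℱ, IsClosed F

/-- `ℱ ↦ (r ℱ, 𝒩 ℱ)` is an assignment as in the definition of monotonically Sokolov spaces:
for every countable family `ℱ` of closed sets, `r ℱ` is a continuous retraction, `𝒩 ℱ` is a
countable external network for the range of `r ℱ`, and `r ℱ` maps each `F ∈ ℱ` into itself;
moreover `𝒩` is monotone. -/
structure IsMonotoneSokolovAssignment {X : Type*} [TopologicalSpace X]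
    (r : Set (Set X) → X → X) (𝒩 : Set (Set X) → Set (Set X)) : Prop where
  continuous : ∀ ℱ, IsCountableClosedFamily ℱ → Continuous (r ℱ)
  retraction : ∀ ℱ, IsCountableClosedFamily ℱ → ∀ x, r ℱ (r ℱ x) = r ℱ x
  countable : ∀ ℱ, IsCountableClosedFamily ℱ → (𝒩 ℱ).Countable
  network : ∀ ℱ, IsCountableClosedFamily ℱ → IsExternalNetwork (𝒩 ℱ) (range (r ℱ))
  invariant : ∀ ℱ, IsCountableClosedFamily ℱ → ∀ F ∈ ℱ, r ℱ '' F ⊆ F
  monotone : ∀ ℱ 𝒢, IsCountableClosedFamily ℱ → IsCountableClosedFamily 𝒢 → ℱ ⊆ 𝒢 →
    𝒩 ℱ ⊆ 𝒩 𝒢

/-- Monotonically Sokolov spaces. -/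
def MonotonicallySokolov (X : Type*) [TopologicalSpace X] : Prop :=
  ∃ (r : Set (Set X) → X → X) (𝒩 : Set (Set X) → Set (Set X)), IsMonotoneSokolovAssignment r 𝒩

/-! ### The one-point Lindelöfication of a discrete space -/

/-- The one-point Lindelöfication of the discrete space `I`. -/
def L (I : Type*) : Type _ := Option I

instance (I : Type*) : TopologicalSpace (L I) where
  IsOpen U := (none : Option I) ∈ U → (Uᶜ).Countable
  isOpen_univ := by intro _; simp
  isOpen_inter := by
    intro s t hs ht h
    rw [compl_inter]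
    exact (hs h.1).union (ht h.2)
  isOpen_sUnion := by
    rintro S hS ⟨U, hU, hn⟩
    exact (hS U hU hn).mono (compl_subset_compl.2 (subset_sUnion_of_mem hU))

theorem isOpen_L {I : Type*} {U : Set (L I)} :
    IsOpen U ↔ ((none : Option I) ∈ U → (Uᶜ).Countable) := Iff.rfl

theorem isOpen_of_notMem {I : Type*} {U : Set (L I)} (h : (none : Option I) ∉ U) : IsOpen U :=
  fun h' => absurd h' h

theorem isClosed_of_mem {I : Type*} {U : Set (L I)} (h : (none : Option I) ∈ U) : IsClosed U :=
  ⟨isOpen_of_notMem fun h' => h' h⟩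

theorem countable_of_isClosed {I : Type*} {F : Set (L I)} (hF : IsClosed F)
    (h : (none : Option I) ∉ F) : F.Countable := by
  have := isOpen_L.1 hF.isOpen_compl h
  rwa [compl_compl] at this

instance (I : Type*) : T35Space (L I) := by
  have h1 : T1Space (L I) := by
    refine ⟨fun x => ⟨?_⟩⟩
    intro _
    rw [compl_compl]
    exact countable_singleton x
  have h2 : CompletelyRegularSpace (L I) := by
    classical
    refine ⟨fun x K hK hx => ?_⟩
    -- a clopen set around `x` missing `K`
    obtain ⟨U, hU, hxU, hUK⟩ : ∃ U : Set (L I), IsClopen U ∧ x ∈ U ∧ Disjoint U K := by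
      by_cases hn : (none : Option I) = x
      · subst hn
        exact ⟨Kᶜ, ⟨isClosed_of_mem hx, hK.isOpen_compl⟩, hx, disjoint_compl_left⟩
      · exact ⟨{x}, ⟨isClosed_singleton, isOpen_of_notMem hn⟩, rfl,
          disjoint_singleton_left.2 hx⟩
    refine ⟨fun y => if y ∈ U then 0 else 1, ?_, ?_, ?_⟩
    · refine continuous_const.if (fun a ha => ?_) continuous_const
      have : frontier {y | y ∈ U} = ∅ := hU.frontier_eq
      rw [this] at ha
      exact absurd ha (notMem_empty a)
    · simp [hxU]
    · intro y hy
      have : y ∉ U := fun h => disjoint_left.1 hUK h hy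
      simp [this]
  exact { }

/-- The countable part recorded by a countable family of closed sets. -/
def core {I : Type*} (ℱ : Set (Set (L I))) : Set (L I) :=
  insert (none : Option I) (⋃ F ∈ {F ∈ ℱ | (none : Option I) ∉ F}, F)

open Classical in
/-- The retraction attached to a family. -/
noncomputable def retr {I : Type*} (ℱ : Set (Set (L I))) (x : L I) : L I :=
  if x ∈ core ℱ then x else (none : Option I)

/-- The network attached to a family. -/
def net {I : Type*} (ℱ : Set (Set (L I))) : Set (Set (L I)) :=
  (fun x => {x}) '' core ℱ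

theorem core_countable {I : Type*} {ℱ : Set (Set (L I))} (h : IsCountableClosedFamily ℱ) :
    (core ℱ).Countable := by
  refine Countable.insert _ (Countable.biUnion (h.1.mono (sep_subset _ _)) ?_)
  rintro F ⟨hF, hn⟩
  exact countable_of_isClosed (h.2 F hF) hn

theorem none_mem_core {I : Type*} (ℱ : Set (Set (L I))) : (none : Option I) ∈ core ℱ :=
  mem_insert _ _

theorem core_mono {I : Type*} {ℱ 𝒢 : Set (Set (L I))} (h : ℱ ⊆ 𝒢) : core ℱ ⊆ core 𝒢 :=
  insert_subset_insert (biUnion_subset_biUnion_left fun _ hF => ⟨h hF.1, hF.2⟩)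

theorem retr_of_mem {I : Type*} {ℱ : Set (Set (L I))} {x : L I} (h : x ∈ core ℱ) :
    retr ℱ x = x := if_pos h

theorem retr_of_notMem {I : Type*} {ℱ : Set (Set (L I))} {x : L I} (h : x ∉ core ℱ) :
    retr ℱ x = (none : Option I) := if_neg h

theorem retr_mem_core {I : Type*} (ℱ : Set (Set (L I))) (x : L I) : retr ℱ x ∈ core ℱ := by
  by_cases h : x ∈ core ℱ
  · rw [retr_of_mem h]
    exact h
  · rw [retr_of_notMem h]
    exact none_mem_core ℱ

theorem isAssignment_L (I : Type*) :
    IsMonotoneSokolovAssignment (retr (I := I)) (net (I := I)) where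
  continuous ℱ h := by
    refine ⟨fun U hU => ?_⟩
    intro hn
    have h1 : (none : Option I) ∈ U := by
      have : retr ℱ (none : Option I) ∈ U := hn
      rwa [retr_of_mem (none_mem_core ℱ)] at this
    refine (hU h1).mono ?_
    intro x hx hxU
    apply hx
    show retr ℱ x ∈ U
    by_cases h : x ∈ core ℱ
    · rw [retr_of_mem h]
      exact hxU
    · rw [retr_of_notMem h]
      exact h1
  retraction ℱ _ x := retr_of_mem (retr_mem_core ℱ x)
  countable ℱ h := (core_countable h).image _
  network ℱ _ := by
    rintro _ ⟨x, rfl⟩ U _ hx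
    exact ⟨{retr ℱ x}, ⟨_, retr_mem_core ℱ x, rfl⟩, rfl, singleton_subset_iff.2 hx⟩
  invariant ℱ _ := by
    rintro F hF _ ⟨x, hx, rfl⟩
    by_cases hn : (none : Option I) ∈ F
    · by_cases h : x ∈ core ℱ
      · rw [retr_of_mem h]
        exact hx
      · rw [retr_of_notMem h]
        exact hn
    · have : x ∈ core ℱ := mem_insert_of_mem _ (mem_biUnion (show F ∈ {F ∈ ℱ | _} from ⟨hF, hn⟩) hx)
      rwa [retr_of_mem this]
  monotone ℱ 𝒢 _ _ h := image_mono (core_mono h)

theorem net_iUnion {I : Type*} (ℱ : ℕ → Set (Set (L I))) :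
    net (⋃ n, ℱ n) = ⋃ n, net (ℱ n) := by
  unfold net
  rw [← image_iUnion]
  congr 1
  apply Subset.antisymm
  · rintro x (h | h)
    · exact mem_iUnion.2 ⟨0, Or.inl h⟩
    · obtain ⟨F, ⟨hF, hn⟩, hx⟩ := mem_iUnion₂.1 h
      obtain ⟨n, hF⟩ := mem_iUnion.1 hF
      exact mem_iUnion.2 ⟨n, Or.inr (mem_iUnion₂.2 ⟨F, ⟨hF, hn⟩, hx⟩)⟩
  · exact iUnion_subset fun n => core_mono (subset_iUnion ℱ n)

/-! ### The continuous image -/

/-- The points of the Cantor set. -/
abbrev D : Type := ℕ → Bool

/-- Codes of basic clopen sets of the Cantor set. -/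
abbrev S : Type := ℕ × Finset ℕ

/-- The clopen set coded by `s`. -/
def cyl (s : S) : Set D := {z | ∀ i < s.1, (z i = true ↔ i ∈ s.2)}

/-- The code of the `n`-th basic clopen neighbourhood of `x`. -/
def code (x : D) (n : ℕ) : S := (n, (Finset.range n).filter fun i => x i = true)

theorem mem_cyl_code {x z : D} {n : ℕ} : z ∈ cyl (code x n) ↔ ∀ i < n, z i = x i := by
  simp only [cyl, code, mem_ofPred_eq, Finset.mem_filter, Finset.mem_range]
  constructor
  · intro h i hi
    have := h i hi
    cases hz : z i <;> cases hx : x i <;> simp_all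
  · intro h i hi
    rw [h i hi]
    simp [hi]

theorem not_countable_D : ¬ Countable D := by
  rw [← Cardinal.mk_le_aleph0_iff]
  simp [D, Cardinal.aleph0_lt_continuum]

open Classical in
/-- The map of the one-point Lindelöfication of `D ⊕ S` into the Cantor cube of weight `D`. -/
noncomputable def g : L (D ⊕ S) → (D → Bool)
  | none => fun _ => false
  | some (Sum.inl x) => fun z => decide (z = x)
  | some (Sum.inr s) => fun z => decide (z ∈ cyl s)

theorem continuous_g : Continuous g := by
  rw [continuous_pi_iff]
  intro z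
  refine ⟨fun U _ hn => ?_⟩
  have h1 : false ∈ U := hn
  have h2 : ((fun a : L (D ⊕ S) => g a z) ⁻¹' U)ᶜ ⊆
      insert (some (Sum.inl z) : Option (D ⊕ S))
        (range fun s : S => (some (Sum.inr s) : Option (D ⊕ S))) := by
    rintro (_ | x | s) h
    · exact absurd h1 h
    · left
      by_contra hne
      apply h
      show g (some (Sum.inl x)) z ∈ U
      have : z ≠ x := fun e => hne (by rw [e])
      simp only [g, this, decide_false]
      exact h1
    · exact Or.inr ⟨s, rfl⟩
  exact ((countable_range _).insert _).mono h2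

/-- The image space. -/
def Y : Type := range g

instance : TopologicalSpace Y := inferInstanceAs (TopologicalSpace (range g))

instance : T35Space Y := inferInstanceAs (T35Space (range g))

/-- The continuous surjection. -/
noncomputable def f : L (D ⊕ S) → Y := rangeFactorization g

theorem continuous_f : Continuous f := continuous_g.rangeFactorization

theorem surjective_f : Function.Surjective f := rangeFactorization_surjective

theorem not_monotonicallySokolov_Y : ¬ MonotonicallySokolov Y := by
  classical
  rintro ⟨r, 𝒩, h⟩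
  set ys : S → Y := fun s => f (some (Sum.inr s)) with hys
  set yx : D → Y := fun x => f (some (Sum.inl x)) with hyx
  set ℱ : Set (Set Y) := range fun s => {ys s} with hℱ
  have hF : IsCountableClosedFamily ℱ := by
    refine ⟨countable_range _, ?_⟩
    rintro _ ⟨s, rfl⟩
    exact isClosed_singleton
  have hc := h.continuous ℱ hF
  have hfix : ∀ s, r ℱ (ys s) = ys s := by
    intro s
    exact h.invariant ℱ hF {ys s} ⟨s, rfl⟩ ⟨ys s, rfl, rfl⟩
  have hclosed : IsClosed {y | r ℱ y = y} := isClosed_eq hc continuous_id
  have hx : ∀ x, r ℱ (yx x) = yx x := by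
    intro x
    have hlim : Tendsto (fun n => ys (code x n)) atTop (𝓝 (yx x)) := by
      refine tendsto_subtype_rng.2 (tendsto_pi_nhds.2 ?_)
      intro z
      by_cases hz : z = x
      · subst hz
        have : ∀ n, ((ys (code z n)).1 : D → Bool) z = ((yx z).1 : D → Bool) z := by
          intro n
          show decide (z ∈ cyl (code z n)) = decide (z = z)
          have : z ∈ cyl (code z n) := mem_cyl_code.2 fun i _ => rfl
          simp [this]
        simp_rw [this]
        exact tendsto_const_nhds
      · obtain ⟨i, hi⟩ : ∃ i, z i ≠ x i := by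
          by_contra hcon
          push Not at hcon
          exact hz (funext hcon)
        refine tendsto_const_nhds.congr' ?_
        filter_upwards [eventually_gt_atTop i] with n hn
        show decide (z = x) = decide (z ∈ cyl (code x n))
        have : z ∉ cyl (code x n) := fun h' => hi (mem_cyl_code.1 h' i hn)
        simp [this, hz]
    exact hclosed.mem_of_tendsto hlim (Eventually.of_forall fun n => hfix _)
  -- a countable external network for the range of `r ℱ`
  have hnet := h.network ℱ hF
  have hcount := h.countable ℱ hF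
  have hex : ∀ x : D, ∃ N ∈ 𝒩 ℱ, yx x ∈ N ∧ N ⊆ {y : Y | (y.1 : D → Bool) x = true} := by
    intro x
    refine hnet (yx x) ⟨yx x, hx x⟩ _ ?_ ?_
    · have hcont : Continuous fun y : Y => (y.1 : D → Bool) x :=
        (continuous_apply x).comp continuous_subtype_val
      exact (isOpen_discrete ({true} : Set Bool)).preimage hcont
    · show decide (x = x) = true
      simp
  choose N hN hxN hNsub using hex
  have hinj : Function.Injective fun x : D => (⟨N x, hN x⟩ : 𝒩 ℱ) := by
    intro x z hxz
    have e : N x = N z := congrArg Subtype.val hxz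
    have : yx z ∈ {y : Y | (y.1 : D → Bool) x = true} := hNsub x (e ▸ hxN z)
    have h' : decide (x = z) = true := this
    exact of_decide_eq_true h'
  have : Countable (𝒩 ℱ) := hcount.to_subtype
  have hD : Countable D := hinj.countable
  exact not_countable_D hD

/-- There are a monotonically Sokolov space `X` and a continuous surjection of `X` onto a
Tychonoff space `Y` that is not monotonically Sokolov. Moreover the network assignment of `X` can
be chosen to commute with countable unions. -/
theorem result : ∃ (X Y : Type) (_ : TopologicalSpace X) (_ : TopologicalSpace Y)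
    (_ : T35Space X) (_ : T35Space Y) (f : X → Y), Continuous f ∧ Function.Surjective f ∧
      MonotonicallySokolov X ∧ ¬ MonotonicallySokolov Y ∧
      ∃ (r : Set (Set X) → X → X) (𝒩 : Set (Set X) → Set (Set X)),
        IsMonotoneSokolovAssignment r 𝒩 ∧
          ∀ ℱ : ℕ → Set (Set X), 𝒩 (⋃ n, ℱ n) = ⋃ n, 𝒩 (ℱ n) :=
  ⟨L (D ⊕ S), Y, inferInstance, inferInstance, inferInstance, inferInstance, f, continuous_f,
    surjective_f, ⟨_, _, isAssignment_L _⟩, not_monotonicallySokolov_Y, _, _, isAssignment_L _,
    net_iUnion⟩

end Pool.Agent.Results.MP_a45b15_gt.ContinuousImage
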